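import Pool.Agent.H958.RO.Stm

set_option autoImplicit false

/-! Project RO: balls of vertices of degree two. -/

namespace Pool.Agent.H358.RO.Ball

open Finset
open scoped Classical
open Pool.Agent.H958.RO

noncomputable section

section ic

variable {n : ℕ} (bl : Fin n → ℕ) {G H : SimpleGraph (Fin n)} {a b c : Fin n}

theorem ic_nil : ic bl (SimpleGraph.Walk.nil : G.Walk a a) = 0 := rfl

theorem ic_cons (h : G.Adj a c) (p : G.Walk c b) :
    ic bl (SimpleGraph.Walk.cons h p) = (if bl a ≠ bl c then 1 else 0) + ic bl p := by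
  unfold ic
  rw [SimpleGraph.Walk.darts_cons, List.filter_cons]
  by_cases hne : bl a = bl c
  · rw [if_neg (by simpa using hne), if_neg (by simpa using hne), zero_add]
  · rw [if_pos (by simpa using hne), if_pos (by simpa using hne), List.length_cons, add_comm]

theorem ic_append (p : G.Walk a b) (q : G.Walk b c) :
    ic bl (p.append q) = ic bl p + ic bl q := by
  unfold ic
  rw [SimpleGraph.Walk.darts_append, List.filter_append, List.length_append]

theorem ic_reverse (p : G.Walk a b) : ∃ q : G.Walk b a, ic bl q = ic bl p := by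
  induction p with
  | nil => exact ⟨SimpleGraph.Walk.nil, rfl⟩
  | @cons a c b h p ih =>
    obtain ⟨q, hq⟩ := ih
    refine ⟨q.append (SimpleGraph.Walk.cons h.symm SimpleGraph.Walk.nil), ?_⟩
    rw [ic_append, ic_cons, ic_cons, ic_nil, hq, add_zero, add_comm]
    congr 1
    by_cases hne : bl a = bl c
    · rw [if_neg (by simpa using hne.symm), if_neg (by simpa using hne)]
    · rw [if_pos (fun h => hne h.symm), if_pos hne]

theorem ic_transfer (p : G.Walk a b) (h : ∀ u ∈ p.support, ∀ v ∈ p.support, G.Adj u v →
    H.Adj u v) : ∃ q : H.Walk a b, ic bl q = ic bl p := by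
  induction p with
  | nil => exact ⟨SimpleGraph.Walk.nil, rfl⟩
  | @cons a c b hac p ih =>
    obtain ⟨q, hq⟩ := ih (fun u hu v hv huv => h u
      (by rw [SimpleGraph.Walk.support_cons]; exact List.mem_cons_of_mem _ hu) v
      (by rw [SimpleGraph.Walk.support_cons]; exact List.mem_cons_of_mem _ hv) huv)
    have h1 : H.Adj a c := h a (SimpleGraph.Walk.start_mem_support _) c
      (by rw [SimpleGraph.Walk.support_cons]
          exact List.mem_cons_of_mem _ (SimpleGraph.Walk.start_mem_support _)) hac
    refine ⟨SimpleGraph.Walk.cons h1 q, ?_⟩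
    rw [ic_cons, ic_cons, hq]

theorem ic_path (p : G.Walk a b) : ∃ q : G.Walk a b, q.IsPath ∧ ic bl q ≤ ic bl p := by
  induction p with
  | nil => exact ⟨SimpleGraph.Walk.nil, SimpleGraph.Walk.IsPath.nil, le_rfl⟩
  | @cons a c b hac p ih =>
    obtain ⟨q, hqp, hq⟩ := ih
    by_cases ha : a ∈ q.support
    · refine ⟨q.dropUntil a ha, hqp.dropUntil ha, ?_⟩
      have h1 := ic_append bl (q.takeUntil a ha) (q.dropUntil a ha)
      rw [SimpleGraph.Walk.take_spec] at h1
      rw [ic_cons]
      omega
    · refine ⟨SimpleGraph.Walk.cons hac q, hqp.cons ha, ?_⟩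
      rw [ic_cons, ic_cons]
      omega

/-- an interior vertex of a path has two neighbours on the path -/
theorem interior (p : G.Walk a b) (hp : p.IsPath) (w : Fin n) (hw : w ∈ p.support) (hwa : w ≠ a)
    (hwb : w ≠ b) : ∃ u ∈ p.support, ∃ v ∈ p.support, u ≠ v ∧ G.Adj w u ∧ G.Adj w v := by
  induction p with
  | nil =>
    rw [SimpleGraph.Walk.support_nil, List.mem_singleton] at hw
    exact absurd hw hwa
  | @cons a c b hac p ih =>
    rw [SimpleGraph.Walk.cons_isPath_iff] at hp
    rw [SimpleGraph.Walk.support_cons] at hw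
    have hw' : w ∈ p.support := by
      rcases List.mem_cons.1 hw with h | h
      · exact absurd h hwa
      · exact h
    rw [SimpleGraph.Walk.support_cons]
    by_cases hwc : w = c
    · subst hwc
      cases p with
      | nil => exact absurd rfl hwb
      | @cons _ c' _ h' p' =>
        have hc' : c' ∈ (SimpleGraph.Walk.cons h' p').support := by
          rw [SimpleGraph.Walk.support_cons]
          exact List.mem_cons_of_mem _ (SimpleGraph.Walk.start_mem_support _)
        refine ⟨a, List.mem_cons_self, c', List.mem_cons_of_mem _ hc', ?_, hac.symm, h'⟩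
        rintro rfl
        exact hp.2 hc'
    · obtain ⟨u, hu, v, hv, h1, h2, h3⟩ := ih hp.1 hw' hwc hwb
      exact ⟨u, List.mem_cons_of_mem _ hu, v, List.mem_cons_of_mem _ hv, h1, h2, h3⟩

end ic

theorem adj_res {n : ℕ} {E : Finset (Fin n × Fin n)} {S : Finset (Fin n)} {a b : Fin n} :
    (GG (res E S)).Adj a b ↔ a ∈ S ∧ b ∈ S ∧ (GG E).Adj a b := by
  unfold GG res
  simp only [mem_filter]
  constructor
  · rintro ⟨h1, h2 | h2⟩
    · exact ⟨h2.2.1, h2.2.2, h1, Or.inl h2.1⟩
    · exact ⟨h2.2.2, h2.2.1, h1, Or.inr h2.1⟩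
  · rintro ⟨h1, h2, h3, h4 | h4⟩
    · exact ⟨h3, Or.inl ⟨h4, h1, h2⟩⟩
    · exact ⟨h3, Or.inr ⟨h4, h2, h1⟩⟩

theorem near_symm {n : ℕ} {E : Finset (Fin n × Fin n)} {bl : Fin n → ℕ} {S : Finset (Fin n)}
    {k : ℕ} {a b : Fin n} (h : Near E bl S k a b) : Near E bl S k b a := by
  obtain ⟨p, hp⟩ := h
  obtain ⟨q, hq⟩ := ic_reverse bl p
  exact ⟨q, hq.trans_le hp⟩

theorem main : S_BALL := by
  intro n E bl S k y hdeg
  constructor
  · intro B hB hB2 hw
    obtain ⟨w, hwB, hnear⟩ := hw
    obtain ⟨q, hq⟩ := near_symm hnear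
    clear hnear
    have key : ∀ (w z : Fin n) (q : (GG (res E S)).Walk w z), z = y → ic bl q ≤ k → w ∈ B →
        z ∈ B := by
      intro w z q
      induction q with
      | nil => intro _ _ h; exact h
      | @cons w c z h q1 ih =>
        intro hz hic hwB
        have hic' : ic bl q1 ≤ k := by
          rw [ic_cons] at hic
          omega
        refine ih hz hic' ?_
        subst hz
        obtain ⟨h1, h2, h3⟩ := adj_res.1 h
        have hn : Near E bl S k z w := near_symm ⟨SimpleGraph.Walk.cons h q1, hic⟩
        have hd := hdeg w h1 hn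
        have hd2 := hB2 w hwB
        unfold dg at hd hd2
        have hsub : B.filter (fun u => (GG E).Adj w u) ⊆ S.filter (fun u => (GG E).Adj w u) :=
          filter_subset_filter _ hB
        have heq := Finset.eq_of_subset_of_card_le hsub (hd.trans hd2)
        have hc : c ∈ S.filter (fun u => (GG E).Adj w u) := mem_filter.2 ⟨h2, h3⟩
        rw [← heq] at hc
        exact (mem_filter.1 hc).1
    exact key w y q rfl hq hwB
  · intro a ha b hb hna hnb hab
    obtain ⟨p0, hp0⟩ := hab
    obtain ⟨p, hpath, hp⟩ := ic_path bl p0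
    replace hp := hp.trans hp0
    have hnot : ∀ w ∈ p.support, ¬ Near E bl S k y w := by
      intro w hw hnear
      obtain ⟨q, hq⟩ := near_symm hnear
      have key : ∀ (w z : Fin n) (q : (GG (res E S)).Walk w z), z = y → ic bl q ≤ k →
          w ∈ p.support → z ∈ p.support := by
        intro w z q
        induction q with
        | nil => intro _ _ h; exact h
        | @cons w c z h q1 ih =>
          intro hz hic hwB
          have hic' : ic bl q1 ≤ k := by
            rw [ic_cons] at hic
            omega
          refine ih hz hic' ?_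
          subst hz
          obtain ⟨h1, h2, h3⟩ := adj_res.1 h
          have hn : Near E bl S k z w := near_symm ⟨SimpleGraph.Walk.cons h q1, hic⟩
          have hd := hdeg w h1 hn
          have hwa : w ≠ a := by rintro rfl; exact hna hn
          have hwb : w ≠ b := by rintro rfl; exact hnb hn
          obtain ⟨u, hu, v, hv, huv, hwu, hwv⟩ := interior p hpath w hwB hwa hwb
          by_contra hc
          have hcu : c ≠ u := by rintro rfl; exact hc hu
          have hcv : c ≠ v := by rintro rfl; exact hc hv
          have hsub : ({c, u, v} : Finset (Fin n)) ⊆ S.filter (fun u => (GG E).Adj w u) := by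
            intro x hx
            rw [mem_insert, mem_insert, mem_singleton] at hx
            rw [mem_filter]
            rcases hx with rfl | rfl | rfl
            · exact ⟨h2, h3⟩
            · exact ⟨(adj_res.1 hwu).2.1, (adj_res.1 hwu).2.2⟩
            · exact ⟨(adj_res.1 hwv).2.1, (adj_res.1 hwv).2.2⟩
          have hcard := card_le_card hsub
          rw [card_eq_three.2 ⟨c, u, v, hcu, hcv, huv, rfl⟩] at hcard
          unfold dg at hd
          omega
      have hy := key w y q rfl hq hw
      apply hna
      apply near_symm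
      refine ⟨p.takeUntil y hy, ?_⟩
      have h1 := ic_append bl (p.takeUntil y hy) (p.dropUntil y hy)
      rw [SimpleGraph.Walk.take_spec] at h1
      omega
    obtain ⟨q, hq⟩ := ic_transfer bl (H := GG (res E (S.filter (fun w => ¬ Near E bl S k y w))))
      p (by
        intro u hu v hv huv
        obtain ⟨h1, h2, h3⟩ := adj_res.1 huv
        rw [adj_res, mem_filter, mem_filter]
        exact ⟨⟨h1, hnot u hu⟩, ⟨h2, hnot v hv⟩, h3⟩)
    exact ⟨q, hq.trans_le hp⟩

end

end Pool.Agent.H358.RO.Ball
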