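import Pool.Agent.H958.RO.Stm

set_option autoImplicit false

/-! Project RO: the number of configurations. -/

namespace Pool.Agent.H358.RO.Cnt

open Finset
open scoped Classical
open Pool.Agent.W830.RD (Om gle Pr Rlz)
open Pool.Agent.H958.RO

noncomputable section

/-- the block of a vertex is `< T` -/
theorem blk_lt {n T : ℕ} (_hn : 1 ≤ n) (a : Fin n) (hT : 1 ≤ T) : blk n T a < T := by
  unfold blk
  apply Nat.div_lt_of_lt_mul
  exact Nat.mul_lt_mul_of_pos_right a.2 hT

/-- the size of a block -/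
theorem card_blk {n T : ℕ} (hT : 1 ≤ T) (hn : 1 ≤ n) (j : ℕ) :
    ((univ : Finset (Fin n)).filter (fun a => blk n T a = j)).card ≤ n / T + 1 := by
  rcases Finset.eq_empty_or_nonempty
    ((univ : Finset (Fin n)).filter (fun a => blk n T a = j)) with h | h
  · rw [h, card_empty]
    exact Nat.zero_le _
  · obtain ⟨a0, ha0, hmin⟩ := Finset.exists_min_image _ (fun a : Fin n => (a : ℕ)) h
    have hsub : ((univ : Finset (Fin n)).filter (fun a => blk n T a = j)).image
        (fun a : Fin n => (a : ℕ)) ⊆ Icc (a0 : ℕ) (a0 + n / T) := by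
      intro b hb
      obtain ⟨a, ha, rfl⟩ := mem_image.1 hb
      rw [mem_Icc]
      refine ⟨hmin a ha, ?_⟩
      have h0 := (mem_filter.1 ha0).2
      have h1 := (mem_filter.1 ha).2
      unfold blk at h0 h1
      have h2 : (a0 : ℕ) * T / n * n ≤ a0 * T := Nat.div_mul_le_self _ _
      have h3 : (a : ℕ) * T < (a * T / n + 1) * n := by
        have := Nat.lt_div_mul_add (a := (a : ℕ) * T) (show 0 < n by omega)
        rw [Nat.add_mul, one_mul]
        exact this
      rw [h0] at h2
      rw [h1] at h3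
      have h4 : (a : ℕ) * T < a0 * T + n := by
        rw [Nat.add_mul, one_mul] at h3
        omega
      have h5 : ((a : ℕ) - a0) * T < n := by
        rw [Nat.sub_mul]
        have := Nat.mul_le_mul_right T (hmin a ha)
        change (a0 : ℕ) * T ≤ a * T at this
        omega
      have h6 : (a : ℕ) - a0 ≤ n / T := (Nat.le_div_iff_mul_le (by omega)).2 h5.le
      have := hmin a ha
      change (a0 : ℕ) ≤ a at this
      omega
    have hcard := card_le_card hsub
    rw [card_image_of_injective _ Fin.val_injective, Nat.card_Icc] at hcard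
    generalize n / T = w at hcard ⊢
    omega

/-- admissible maps -/
def adm (n T v k : ℕ) (π : Finset (Fin v × Fin v)) (φ : Fin v → Fin n) : Prop :=
  Function.Injective φ ∧ KIn (π.image (Prod.map φ φ)) (blk n T) (univ.image φ) k

/-- the pairs inside the blocks -/
def FF (n T v : ℕ) (π : Finset (Fin v × Fin v)) (φ : Fin v → Fin n) : Finset (Fin v × Fin v) :=
  π.filter (fun e => blk n T (φ e.1) = blk n T (φ e.2))

theorem walk_blk {n T v : ℕ} (π F : Finset (Fin v × Fin v)) (φ φ' : Fin v → Fin n)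
    (hφ : Function.Injective φ) (hF : FF n T v π φ = F) (hF' : FF n T v π φ' = F) {a b : Fin n}
    (p : (GG (res (π.image (Prod.map φ φ)) (univ.image φ))).Walk a b) :
    ic (blk n T) p = 0 → ∀ i j, φ i = a → φ j = b → blk n T (φ' i) = blk n T (φ' j) := by
  induction p with
  | nil =>
    intro _ i j hi hj
    have : i = j := hφ (hi.trans hj.symm)
    rw [this]
  | @cons a c b h p ih =>
    intro hic i j hi hj
    unfold ic at hic
    rw [SimpleGraph.Walk.darts_cons, List.filter_cons] at hic
    have hbl : blk n T a = blk n T c := by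
      by_contra hne
      rw [if_pos (by simpa using hne)] at hic
      simp at hic
    rw [if_neg (by simpa using hbl)] at hic
    obtain ⟨-, hadj⟩ := h
    have hmem : ∃ m, φ m = c ∧ ((i, m) ∈ π ∨ (m, i) ∈ π) := by
      rcases hadj with h1 | h1
      · obtain ⟨h2, h3, h4⟩ := mem_filter.1 h1
        obtain ⟨⟨x, y⟩, hxy, hxye⟩ := mem_image.1 h2
        have e1 : φ x = a := congrArg Prod.fst hxye
        have e2 : φ y = c := congrArg Prod.snd hxye
        have e3 : x = i := hφ (e1.trans hi.symm)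
        exact ⟨y, e2, Or.inl (e3 ▸ hxy)⟩
      · obtain ⟨h2, h3, h4⟩ := mem_filter.1 h1
        obtain ⟨⟨x, y⟩, hxy, hxye⟩ := mem_image.1 h2
        have e1 : φ x = c := congrArg Prod.fst hxye
        have e2 : φ y = a := congrArg Prod.snd hxye
        have e3 : y = i := hφ (e2.trans hi.symm)
        exact ⟨x, e1, Or.inr (e3 ▸ hxy)⟩
    obtain ⟨m, hm, hπ⟩ := hmem
    have key : blk n T (φ' i) = blk n T (φ' m) := by
      rcases hπ with h1 | h1
      · have h2 : (i, m) ∈ FF n T v π φ := by
          unfold FF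
          rw [mem_filter]
          refine ⟨h1, ?_⟩
          change blk n T (φ i) = blk n T (φ m)
          rw [hi, hm]; exact hbl
        rw [hF, ← hF'] at h2
        unfold FF at h2
        exact (mem_filter.1 h2).2
      · have h2 : (m, i) ∈ FF n T v π φ := by
          unfold FF
          rw [mem_filter]
          refine ⟨h1, ?_⟩
          change blk n T (φ m) = blk n T (φ i)
          rw [hi, hm]; exact hbl.symm
        rw [hF, ← hF'] at h2
        unfold FF at h2
        exact (mem_filter.1 h2).2.symm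
    rw [key]
    exact ih hic m j hm hj

/-- for fixed pairs inside the blocks -/
theorem card_F {n T v k : ℕ} (hT : 1 ≤ T) (hn : 1 ≤ n) (π F : Finset (Fin v × Fin v)) :
    ((univ : Finset (Fin v → Fin n)).filter
      (fun φ => adm n T v k π φ ∧ FF n T v π φ = F)).card ≤ T ^ k * (n / T + 1) ^ v := by
  rcases Finset.eq_empty_or_nonempty ((univ : Finset (Fin v → Fin n)).filter
      (fun φ => adm n T v k π φ ∧ FF n T v π φ = F)) with h | ⟨φ, hφ⟩
  · rw [h, card_empty]
    exact Nat.zero_le _
  · obtain ⟨-, ⟨hinj, lab, hlab⟩, hF⟩ := mem_filter.1 hφ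
    have hsub : ((univ : Finset (Fin v → Fin n)).filter
        (fun φ => adm n T v k π φ ∧ FF n T v π φ = F)) ⊆
        (univ : Finset (Fin k → Fin T)).biUnion (fun β =>
          Fintype.piFinset (fun i : Fin v =>
            (univ : Finset (Fin n)).filter (fun a => blk n T a = (β (lab (φ i)) : ℕ)))) := by
      intro φ' hφ'
      obtain ⟨-, -, hF'⟩ := mem_filter.1 hφ'
      rw [mem_biUnion]
      have hT0 : 0 < T := hT
      refine ⟨fun c => if h : ∃ i, lab (φ i) = c then
        ⟨blk n T (φ' h.choose), blk_lt hn _ hT⟩ else ⟨0, hT0⟩, mem_univ _, ?_⟩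
      rw [Fintype.mem_piFinset]
      intro i
      rw [mem_filter]
      refine ⟨mem_univ _, ?_⟩
      have hex : ∃ i', lab (φ i') = lab (φ i) := ⟨i, rfl⟩
      change blk n T (φ' i) = ((if h : ∃ i', lab (φ i') = lab (φ i) then
        (⟨blk n T (φ' h.choose), blk_lt hn _ hT⟩ : Fin T) else ⟨0, hT0⟩ : Fin T) : ℕ)
      rw [dif_pos hex]
      change blk n T (φ' i) = blk n T (φ' hex.choose)
      have hc := hex.choose_spec
      obtain ⟨p, hp⟩ := hlab (φ i) (mem_image_of_mem _ (mem_univ _)) (φ hex.choose)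
        (mem_image_of_mem _ (mem_univ _)) hc.symm
      exact walk_blk π F φ φ' hinj hF hF' p (Nat.le_zero.1 hp) i _ rfl rfl
    refine (card_le_card hsub).trans ?_
    refine (Finset.card_biUnion_le_card_mul _ _ ((n / T + 1) ^ v) ?_).trans ?_
    · intro β _
      rw [Fintype.card_piFinset]
      calc ∏ i : Fin v, ((univ : Finset (Fin n)).filter
            (fun a => blk n T a = (β (lab (φ i)) : ℕ))).card
          ≤ ∏ i : Fin v, (n / T + 1) := Finset.prod_le_prod' fun i _ => card_blk hT hn _
        _ = (n / T + 1) ^ v := by rw [prod_const, card_univ, Fintype.card_fin]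
    · rw [card_univ, Fintype.card_fun, Fintype.card_fin, Fintype.card_fin]

/-- for fixed pairs -/
theorem card_adm {n T v k m : ℕ} (hT : 1 ≤ T) (hn : 1 ≤ n) (π : Finset (Fin v × Fin v))
    (hπ : π.card = m) :
    ((univ : Finset (Fin v → Fin n)).filter (fun φ => adm n T v k π φ)).card ≤
      2 ^ m * (T ^ k * (n / T + 1) ^ v) := by
  have hsub : ((univ : Finset (Fin v → Fin n)).filter (fun φ => adm n T v k π φ)) ⊆
      π.powerset.biUnion (fun F => (univ : Finset (Fin v → Fin n)).filter
        (fun φ => adm n T v k π φ ∧ FF n T v π φ = F)) := by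
    intro φ hφ
    rw [mem_biUnion]
    refine ⟨FF n T v π φ, mem_powerset.2 (filter_subset _ _), ?_⟩
    rw [mem_filter]
    exact ⟨mem_univ _, (mem_filter.1 hφ).2, rfl⟩
  refine (card_le_card hsub).trans ?_
  refine (Finset.card_biUnion_le_card_mul _ _ (T ^ k * (n / T + 1) ^ v)
    (fun F _ => card_F hT hn π F)).trans ?_
  rw [card_powerset, hπ]

/-- at least `v!` enumerations of a set with `v` elements -/
theorem enum_card {n v : ℕ} (S : Finset (Fin n)) (hS : S.card = v) :
    v.factorial ≤ ((univ : Finset (Fin v → Fin n)).filter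
      (fun φ => Function.Injective φ ∧ univ.image φ = S)).card := by
  subst hS
  let e : Fin S.card ≃ S := S.equivFin.symm
  have h1 : S.card.factorial = (univ : Finset (Equiv.Perm (Fin S.card))).card := by
    rw [card_univ, Fintype.card_perm, Fintype.card_fin]
  rw [h1]
  refine Finset.card_le_card_of_injOn (fun σ => fun i => ((e (σ i) : S) : Fin n)) ?_ ?_
  · intro σ _
    rw [mem_coe, mem_filter]
    refine ⟨mem_univ _, ?_, ?_⟩
    · intro i j hij
      exact σ.injective (e.injective (Subtype.ext hij))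
    · ext a
      rw [mem_image]
      constructor
      · rintro ⟨i, -, rfl⟩
        exact (e (σ i)).2
      · intro ha
        refine ⟨σ.symm (e.symm ⟨a, ha⟩), mem_univ _, ?_⟩
        change ((e (σ (σ.symm (e.symm ⟨a, ha⟩))) : S) : Fin n) = a
        rw [σ.apply_symm_apply, e.apply_symm_apply]
  · intro σ _ τ _ h
    apply Equiv.ext
    intro i
    have := congrFun h i
    exact e.injective (Subtype.ext this)

/-- the pairs of indices of the edges -/
def PI {n v : ℕ} (E : Finset (Fin n × Fin n)) (φ : Fin v → Fin n) : Finset (Fin v × Fin v) :=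
  (univ : Finset (Fin v × Fin v)).filter (fun e => (φ e.1, φ e.2) ∈ E)

theorem mem_PI {n v : ℕ} (E : Finset (Fin n × Fin n)) (φ : Fin v → Fin n) (e : Fin v × Fin v) :
    e ∈ PI E φ ↔ (φ e.1, φ e.2) ∈ E := by
  unfold PI
  rw [mem_filter]
  exact ⟨fun h => h.2, fun h => ⟨mem_univ _, h⟩⟩

theorem PI_image {n v : ℕ} (S : Finset (Fin n)) (E : Finset (Fin n × Fin n))
    (hend : ∀ e ∈ E, e.1 ∈ S ∧ e.2 ∈ S) (φ : Fin v → Fin n) (hφ : univ.image φ = S) :
    (PI E φ).image (Prod.map φ φ) = E := by
  ext e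
  rw [mem_image]
  constructor
  · rintro ⟨ij, hij, rfl⟩
    exact (mem_PI E φ ij).1 hij
  · intro he
    have h2 := hend e he
    rw [← hφ, mem_image, mem_image] at h2
    obtain ⟨⟨i, -, hi⟩, ⟨j, -, hj⟩⟩ := h2
    refine ⟨(i, j), ?_, Prod.ext hi hj⟩
    rw [mem_PI]
    change (φ i, φ j) ∈ E
    rw [hi, hj]
    exact he

theorem mem_cfg {n T v x k : ℕ} (q : Finset (Fin n) × Finset (Fin n × Fin n)) :
    q ∈ cfg n T v x k ↔ (q.1.card = v ∧ q.2 ⊆ Om n ∧ (∀ e ∈ q.2, e.1 ∈ q.1 ∧ e.2 ∈ q.1) ∧
    q.2.card = v + x ∧ KIn q.2 (blk n T) q.1 k) := by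
  unfold cfg
  rw [mem_filter]
  exact ⟨fun h => h.2, fun h => ⟨mem_univ _, h⟩⟩

/-- the enumerations of a set -/
def EN {n : ℕ} (v : ℕ) (S : Finset (Fin n)) : Finset (Fin v → Fin n) :=
  (univ : Finset (Fin v → Fin n)).filter (fun φ => Function.Injective φ ∧ univ.image φ = S)

theorem mem_EN {n : ℕ} (v : ℕ) (S : Finset (Fin n)) (φ : Fin v → Fin n) :
    φ ∈ EN v S ↔ Function.Injective φ ∧ univ.image φ = S := by
  unfold EN
  rw [mem_filter]
  exact ⟨fun h => h.2, fun h => ⟨mem_univ _, h⟩⟩

/-- the admissible maps -/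
def AD (n T v k : ℕ) (π : Finset (Fin v × Fin v)) : Finset (Fin v → Fin n) :=
  (univ : Finset (Fin v → Fin n)).filter (fun φ => adm n T v k π φ)

theorem mem_AD (n T v k : ℕ) (π : Finset (Fin v × Fin v)) (φ : Fin v → Fin n) :
    φ ∈ AD n T v k π ↔ adm n T v k π φ := by
  unfold AD
  rw [mem_filter]
  exact ⟨fun h => h.2, fun h => ⟨mem_univ _, h⟩⟩

theorem step1 (n T v x k : ℕ) : v.factorial * (cfg n T v x k).card ≤
    ((cfg n T v x k).sigma (fun q => EN v q.1)).card := by
  rw [card_sigma, mul_comm]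
  have := Finset.card_nsmul_le_sum (cfg n T v x k) (fun q => (EN v q.1).card) v.factorial ?_
  · rwa [smul_eq_mul] at this
  · intro q hq
    exact enum_card q.1 ((mem_cfg q).1 hq).1

theorem step2 (n T v x k : ℕ) : ((cfg n T v x k).sigma (fun q => EN v q.1)).card ≤
    ((powersetCard (v + x) (univ : Finset (Fin v × Fin v))).sigma
      (fun π => AD n T v k π)).card := by
  refine Finset.card_le_card_of_injOn (fun z => ⟨PI z.1.2 z.2, z.2⟩) ?_ ?_
  · rintro ⟨q, φ⟩ hz
    rw [mem_coe, mem_sigma] at hz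
    obtain ⟨hq, hφ⟩ := hz
    obtain ⟨hinj, him⟩ := (mem_EN v q.1 φ).1 hφ
    obtain ⟨-, -, hend, hcard, hK⟩ := (mem_cfg q).1 hq
    have hb := PI_image q.1 q.2 hend φ him
    rw [mem_coe, mem_sigma]
    refine ⟨?_, ?_⟩
    · rw [mem_powersetCard]
      refine ⟨subset_univ _, ?_⟩
      change (PI q.2 φ).card = _
      rw [← hcard]
      have h5 := card_image_of_injective (PI q.2 φ) (hinj.prodMap hinj)
      rw [hb] at h5
      exact h5.symm
    · rw [mem_AD]
      refine ⟨hinj, ?_⟩
      change KIn ((PI q.2 φ).image (Prod.map φ φ)) (blk n T) (univ.image φ) k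
      rw [hb, him]
      exact hK
  · rintro ⟨q, φ⟩ hz ⟨q', φ'⟩ hz' h
    rw [mem_coe, mem_sigma] at hz hz'
    obtain ⟨hq, hφ⟩ := hz
    obtain ⟨hq', hφ'⟩ := hz'
    obtain ⟨hinj, him⟩ := (mem_EN v q.1 φ).1 hφ
    obtain ⟨hinj', him'⟩ := (mem_EN v q'.1 φ').1 hφ'
    obtain ⟨-, -, hend, -, -⟩ := (mem_cfg q).1 hq
    obtain ⟨-, -, hend', -, -⟩ := (mem_cfg q').1 hq'
    have e2 : φ = φ' := by
      have := congrArg (fun z : (_ : Finset (Fin v × Fin v)) × (Fin v → Fin n) => z.2) h
      exact this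
    subst e2
    have e1 : PI q.2 φ = PI q'.2 φ := by
      have := congrArg (fun z : (_ : Finset (Fin v × Fin v)) × (Fin v → Fin n) => z.1) h
      exact this
    have hb := PI_image q.1 q.2 hend φ him
    have hb' := PI_image q'.1 q'.2 hend' φ him'
    have e3 : q = q' := by
      apply Prod.ext
      · exact him.symm.trans him'
      · rw [← hb, ← hb', e1]
    rw [e3]

theorem step3 (n T v x k : ℕ) (hT : 1 ≤ T) (hn : 1 ≤ n) :
    ((powersetCard (v + x) (univ : Finset (Fin v × Fin v))).sigma
      (fun π => AD n T v k π)).card ≤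
      (v ^ 2).choose (v + x) * (2 ^ (v + x) * (T ^ k * (n / T + 1) ^ v)) := by
  rw [card_sigma]
  have := Finset.sum_le_card_nsmul (powersetCard (v + x) (univ : Finset (Fin v × Fin v)))
    (fun π => (AD n T v k π).card) (2 ^ (v + x) * (T ^ k * (n / T + 1) ^ v))
    (fun π hπ => card_adm hT hn π (mem_powersetCard.1 hπ).2)
  rw [card_powersetCard, card_univ, Fintype.card_prod, Fintype.card_fin, ← sq,
    smul_eq_mul] at this
  exact this

theorem main : S_CNT := by
  intro n T v x k hT hTn
  have hn : 1 ≤ n := hT.trans hTn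
  calc v.factorial * (cfg n T v x k).card ≤ _ := step1 n T v x k
    _ ≤ _ := step2 n T v x k
    _ ≤ _ := step3 n T v x k hT hn
    _ = _ := by ring

end

end Pool.Agent.H358.RO.Cnt
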